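import Mathlib

/-!
# `x + y + z = n`, `x y z = 1 / A` in positive rationals, for `4 ∣ n` (MP_1d631c_nt)

If `n` is a multiple of `4`, then the system `x + y + z = n`, `x y z = 1 / A` has no solution in
positive rational numbers, for any positive integer `A`.  Thus `A(n)` exists for no multiple `n`
of `4`; in particular `A(4)` does not exist.

Proof.  Write `x = a / d`, `y = b / d`, `z = c / d` with `d` as small as possible.  Then
`a + b + c = n d` and `A a b c = d ^ 3`, so `a, b, c` are pairwise coprime and every prime factor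
of `a b c` divides `a + b + c`.  Exactly one of `a, b, c` is even, say `c = 2 ^ e c'`, and then
`a + b + c ≡ 0 (mod 8)`.  As `c ≡ - b` modulo the primes dividing `a`, the Jacobi symbol
`(- b c / a)` is `1`; similarly for `(- a c / b)` and `(- a b / c')`.  The product of the three
symbols, evaluated by quadratic reciprocity, is `- 1` because of `a + b + c ≡ 0 (mod 8)`.
-/

set_option autoImplicit false

namespace Pool.Agent.Results.MP_1d631c_nt.NoneForMultiplesOfFour

open NumberTheorySymbols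

/-- If every prime factor of the odd number `a` divides `b + c`, and `a` is coprime to `b` and to
`c`, then the Jacobi symbol `(- b c / a)` is `1`. -/
lemma symbol_eq_one {a b c : ℕ} (hb : Nat.Coprime a b) (hc : Nat.Coprime a c)
    (h : ∀ p : ℕ, p.Prime → p ∣ a → p ∣ b + c) : J(-((b : ℤ) * c) | a) = 1 := by
  have hne : J(-((b : ℤ) * c) | a) ≠ 0 := by
    apply jacobiSym.ne_zero
    have h1 : Int.gcd (-((b : ℤ) * c)) a = Nat.gcd (b * c) a := by
      rw [Int.gcd_eq_natAbs, Int.natAbs_neg, Int.natAbs_mul]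
      simp
    rw [h1]
    exact (Nat.Coprime.mul_right hb hc).symm
  rcases jacobiSym.trichotomy (-((b : ℤ) * c)) a with h0 | h1 | h1
  · exact absurd h0 hne
  · exact h1
  · exfalso
    obtain ⟨p, hp, hpa, hJ⟩ := jacobiSym.eq_neg_one_at_prime_divisor_of_eq_neg_one h1
    have hpb : (p : ℤ) ∣ (b : ℤ) + c := by exact_mod_cast h p hp hpa
    have hcop : Int.gcd (b : ℤ) p = 1 := by
      rw [Int.gcd_natCast_natCast]
      exact (Nat.Coprime.coprime_dvd_left hpa hb).symm
    have h2 : J(-((b : ℤ) * c) | p) = J((b : ℤ) ^ 2 | p) := by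
      apply jacobiSym.mod_left'
      apply Int.emod_emod_of_dvd _ (dvd_refl _) |>.symm.trans
      rw [Int.emod_emod_of_dvd _ (dvd_refl _)]
      apply Int.ModEq.eq
      apply Int.ModEq.symm
      rw [Int.modEq_iff_dvd]
      have : -((b : ℤ) * c) - (b : ℤ) ^ 2 = -(b : ℤ) * ((b : ℤ) + c) := by ring
      rw [this]
      exact Dvd.dvd.mul_left hpb _
    rw [h2, jacobiSym.sq_one' hcop] at hJ
    norm_num at hJ

/-- Quadratic reciprocity as a product. -/
lemma recip {a b : ℕ} (ha : a % 2 = 1) (hb : b % 2 = 1) (h : Nat.Coprime a b) :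
    J(b | a) = (if a % 4 = 3 ∧ b % 4 = 3 then -1 else 1) * J(a | b) := by
  split_ifs with h3
  · rw [jacobiSym.quadratic_reciprocity_three_mod_four h3.2 h3.1]; ring
  · have : a % 4 = 1 ∨ b % 4 = 1 := by omega
    rcases this with h4 | h4
    · rw [jacobiSym.quadratic_reciprocity_one_mod_four' (Nat.odd_iff.2 hb) h4]; ring
    · rw [jacobiSym.quadratic_reciprocity_one_mod_four h4 (Nat.odd_iff.2 ha)]; ring

/-- The main contradiction. -/
lemma core {a b c : ℕ} (ha : a % 2 = 1) (hb : b % 2 = 1) (hc : c % 2 = 0) (hc0 : 0 < c)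
    (hab : Nat.Coprime a b) (hac : Nat.Coprime a c) (hbc : Nat.Coprime b c)
    (h : ∀ p : ℕ, p.Prime → p ∣ a * b * c → p ∣ a + b + c) (h8 : (a + b + c) % 8 = 0) : False := by
  obtain ⟨e, c', hc'odd, rfl⟩ := Nat.exists_eq_two_pow_mul_odd hc0.ne'
  have hc' : c' % 2 = 1 := Nat.odd_iff.1 hc'odd
  have hac' : Nat.Coprime a c' := Nat.Coprime.coprime_dvd_right (Dvd.intro_left _ rfl) hac
  have hbc' : Nat.Coprime b c' := Nat.Coprime.coprime_dvd_right (Dvd.intro_left _ rfl) hbc
  -- the three symbols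
  have s1 : J(-((b : ℤ) * (2 ^ e * c' : ℕ)) | a) = 1 := by
    apply symbol_eq_one hab hac
    intro p hp hpa
    have h1 := h p hp (Dvd.dvd.mul_right (Dvd.dvd.mul_right hpa _) _)
    have h2 : a + b + 2 ^ e * c' = a + (b + 2 ^ e * c') := by ring
    rw [h2] at h1
    exact (Nat.dvd_add_right hpa).1 h1
  have s2 : J(-((a : ℤ) * (2 ^ e * c' : ℕ)) | b) = 1 := by
    apply symbol_eq_one hab.symm hbc
    intro p hp hpb
    have h1 := h p hp (Dvd.dvd.mul_right (Dvd.dvd.mul_left hpb _) _)
    have h2 : a + b + 2 ^ e * c' = b + (a + 2 ^ e * c') := by ring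
    rw [h2] at h1
    exact (Nat.dvd_add_right hpb).1 h1
  have s3 : J(-((a : ℤ) * (b : ℕ)) | c') = 1 := by
    apply symbol_eq_one hac'.symm hbc'.symm
    intro p hp hpc
    have h0 : p ∣ 2 ^ e * c' := Dvd.dvd.mul_left hpc _
    have h1 := h p hp (Dvd.dvd.mul_left h0 _)
    exact (Nat.dvd_add_left h0).1 h1
  -- signs
  have u2 : J(a | b) * J(a | b) = 1 := by
    have := jacobiSym.sq_one (a := (a : ℤ)) (b := b) (by rw [Int.gcd_natCast_natCast]; exact hab)
    rwa [sq] at this
  have v2 : J(a | c') * J(a | c') = 1 := by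
    have := jacobiSym.sq_one (a := (a : ℤ)) (b := c') (by rw [Int.gcd_natCast_natCast]; exact hac')
    rwa [sq] at this
  have w2 : J(b | c') * J(b | c') = 1 := by
    have := jacobiSym.sq_one (a := (b : ℤ)) (b := c') (by rw [Int.gcd_natCast_natCast]; exact hbc')
    rwa [sq] at this
  rw [jacobiSym.neg _ (Nat.odd_iff.2 ha)] at s1
  rw [jacobiSym.neg _ (Nat.odd_iff.2 hb)] at s2
  rw [jacobiSym.neg _ hc'odd] at s3
  push_cast at s1 s2 s3
  simp only [jacobiSym.mul_left, jacobiSym.pow_left] at s1 s2 s3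
  rw [jacobiSym.at_two (Nat.odd_iff.2 ha), recip ha hb hab, recip ha hc' hac'] at s1
  rw [jacobiSym.at_two (Nat.odd_iff.2 hb), recip hb hc' hbc'] at s2
  have key : (ZMod.χ₄ a * ZMod.χ₄ b * ZMod.χ₄ c') * (ZMod.χ₈ a * ZMod.χ₈ b) ^ e *
      ((if a % 4 = 3 ∧ b % 4 = 3 then (-1 : ℤ) else 1) *
       (if a % 4 = 3 ∧ c' % 4 = 3 then (-1 : ℤ) else 1) *
       (if b % 4 = 3 ∧ c' % 4 = 3 then (-1 : ℤ) else 1)) = 1 := by
    have hprod := congrArg₂ (· * ·) (congrArg₂ (· * ·) s1 s2) s3
    simp only [one_mul] at hprod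
    rw [mul_pow]
    generalize (if a % 4 = 3 ∧ b % 4 = 3 then (-1 : ℤ) else 1) = P at hprod ⊢
    generalize (if a % 4 = 3 ∧ c' % 4 = 3 then (-1 : ℤ) else 1) = Q at hprod ⊢
    generalize (if b % 4 = 3 ∧ c' % 4 = 3 then (-1 : ℤ) else 1) = R at hprod ⊢
    generalize J(a | b) = u at hprod u2
    generalize J(a | c') = v at hprod v2
    generalize J(b | c') = w at hprod w2
    linear_combination hprod - ZMod.χ₄ a * ZMod.χ₄ b * ZMod.χ₄ c' * ZMod.χ₈ a ^ e *
      ZMod.χ₈ b ^ e * P * Q * R * ((v * v) * (w * w) * u2 + (w * w) * v2 + w2)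
  -- evaluate the characters
  have x4 : ∀ m : ℕ, m % 2 = 1 → ZMod.χ₄ m = if m % 4 = 3 then (-1 : ℤ) else 1 := by
    intro m hm
    split_ifs with h3
    · exact ZMod.χ₄_nat_three_mod_four h3
    · exact ZMod.χ₄_nat_one_mod_four (by omega)
  have x8 : ∀ m : ℕ, m % 2 = 1 → ZMod.χ₈ m = if m % 8 = 1 ∨ m % 8 = 7 then (1 : ℤ) else -1 := by
    intro m hm
    rw [ZMod.χ₈_nat_eq_if_mod_eight, if_neg (by omega)]
  rw [x4 a ha, x4 b hb, x4 c' hc', x8 a ha, x8 b hb] at key
  have he : e = 1 ∨ e = 2 ∨ 3 ≤ e := by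
    rcases e with _ | _ | _ | e
    · simp only [pow_zero, one_mul] at hc; omega
    · simp
    · simp
    · right; right; omega
  rcases he with rfl | rfl | he
  · -- e = 1
    have ha8 : a % 8 = 1 ∨ a % 8 = 3 ∨ a % 8 = 5 ∨ a % 8 = 7 := by omega
    have hb8 : b % 8 = 1 ∨ b % 8 = 3 ∨ b % 8 = 5 ∨ b % 8 = 7 := by omega
    have hc8 : c' % 8 = 1 ∨ c' % 8 = 3 ∨ c' % 8 = 5 ∨ c' % 8 = 7 := by omega
    rcases ha8 with h1 | h1 | h1 | h1 <;> rcases hb8 with h2 | h2 | h2 | h2 <;>
      rcases hc8 with h3 | h3 | h3 | h3 <;>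
      first
      | (exfalso; omega)
      | (have a4 : a % 4 = (a % 8) % 4 := by omega
         have b4 : b % 4 = (b % 8) % 4 := by omega
         have c4 : c' % 4 = (c' % 8) % 4 := by omega
         rw [a4, b4, c4, h1, h2, h3] at key
         norm_num at key)
  · -- e = 2
    have ha8 : a % 4 = 1 ∨ a % 4 = 3 := by omega
    have hb8 : b % 4 = 1 ∨ b % 4 = 3 := by omega
    have hc8 : c' % 4 = 1 ∨ c' % 4 = 3 := by omega
    have hsq : ((if a % 8 = 1 ∨ a % 8 = 7 then (1 : ℤ) else -1) *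
        (if b % 8 = 1 ∨ b % 8 = 7 then (1 : ℤ) else -1)) ^ 2 = 1 := by
      split_ifs <;> norm_num
    rw [hsq] at key
    rcases ha8 with h1 | h1 <;> rcases hb8 with h2 | h2 <;> rcases hc8 with h3 | h3 <;>
      first
      | (exfalso; omega)
      | (rw [h1, h2, h3] at key
         norm_num at key)
  · -- e ≥ 3
    obtain ⟨k, rfl⟩ : ∃ k, e = k + 3 := ⟨e - 3, by omega⟩
    have h9 : (a + b) % 8 = 0 := by
      have : a + b + 2 ^ (k + 3) * c' = a + b + 8 * (2 ^ k * c') := by ring
      omega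
    have hone : (if a % 8 = 1 ∨ a % 8 = 7 then (1 : ℤ) else -1) *
        (if b % 8 = 1 ∨ b % 8 = 7 then (1 : ℤ) else -1) = 1 := by
      split_ifs <;> first | (exfalso; omega) | norm_num
    rw [hone] at key
    have ha8 : a % 4 = 1 ∨ a % 4 = 3 := by omega
    have hb8 : b % 4 = 1 ∨ b % 4 = 3 := by omega
    have hc8 : c' % 4 = 1 ∨ c' % 4 = 3 := by omega
    rcases ha8 with h1 | h1 <;> rcases hb8 with h2 | h2 <;> rcases hc8 with h3 | h3 <;>
      first
      | (exfalso; omega)
      | (rw [h1, h2, h3] at key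
         norm_num at key)

/-- The integral form: there are no positive integers with `4 ∣ n`, `a + b + c = n d` and
`A a b c = d ^ 3`. -/
lemma no_integral {n A : ℕ} (hn : 4 ∣ n) (hA : 0 < A) : ∀ d a b c : ℕ, 0 < d → 0 < a → 0 < b →
    0 < c → a + b + c = n * d → A * a * b * c = d ^ 3 → False := by
  intro d
  induction d using Nat.strong_induction_on with
  | _ d ih =>
    intro a b c hd ha hb hc hsum hprod
    have hdiv : ∀ p : ℕ, p.Prime → p ∣ a * b * c → p ∣ d := by
      intro p hp hpd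
      apply hp.dvd_of_dvd_pow (n := 3)
      rw [← hprod]
      have : A * a * b * c = A * (a * b * c) := by ring
      rw [this]
      exact Dvd.dvd.mul_left hpd _
    -- descent
    have hdesc : ∀ p : ℕ, p.Prime → p ∣ a → p ∣ b → p ∣ c → False := by
      intro p hp hpa hpb hpc
      have hpd : p ∣ d := hdiv p hp (Dvd.dvd.mul_left hpc _)
      obtain ⟨a', rfl⟩ := hpa
      obtain ⟨b', rfl⟩ := hpb
      obtain ⟨c', rfl⟩ := hpc
      obtain ⟨d', rfl⟩ := hpd
      have hp0 := hp.pos
      refine ih d' ?_ a' b' c' (Nat.pos_of_mul_pos_left hd) (Nat.pos_of_mul_pos_left ha)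
        (Nat.pos_of_mul_pos_left hb) (Nat.pos_of_mul_pos_left hc) ?_ ?_
      · have : 0 < d' := Nat.pos_of_mul_pos_left hd
        nlinarith [hp.two_le]
      · apply Nat.eq_of_mul_eq_mul_left hp0
        linarith
      · apply Nat.eq_of_mul_eq_mul_left (pow_pos hp0 3)
        linarith
    have hmem : ∀ p : ℕ, p.Prime → p ∣ a * b * c → p ∣ a + b + c := by
      intro p hp hpd
      rw [hsum]
      exact Dvd.dvd.mul_left (hdiv p hp hpd) _
    have hab : Nat.Coprime a b := by
      apply Nat.Coprime.symm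
      by_contra hcon
      obtain ⟨p, hp, hpb, hpa⟩ := Nat.Prime.not_coprime_iff_dvd.1 hcon
      have h1 := hmem p hp (Dvd.dvd.mul_right (Dvd.dvd.mul_right hpa _) _)
      exact hdesc p hp hpa hpb ((Nat.dvd_add_right (Dvd.dvd.add hpa hpb)).1 h1)
    have hac : Nat.Coprime a c := by
      by_contra hcon
      obtain ⟨p, hp, hpa, hpc⟩ := Nat.Prime.not_coprime_iff_dvd.1 hcon
      have h1 := hmem p hp (Dvd.dvd.mul_right (Dvd.dvd.mul_right hpa _) _)
      have h2 : a + b + c = (a + c) + b := by ring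
      rw [h2] at h1
      exact hdesc p hp hpa ((Nat.dvd_add_right (Dvd.dvd.add hpa hpc)).1 h1) hpc
    have hbc : Nat.Coprime b c := by
      by_contra hcon
      obtain ⟨p, hp, hpb, hpc⟩ := Nat.Prime.not_coprime_iff_dvd.1 hcon
      have h1 := hmem p hp (Dvd.dvd.mul_right (Dvd.dvd.mul_left hpb _) _)
      have h2 : a + b + c = (b + c) + a := by ring
      rw [h2] at h1
      exact hdesc p hp ((Nat.dvd_add_right (Dvd.dvd.add hpb hpc)).1 h1) hpb hpc
    have h8 : 2 ∣ a * b * c → (a + b + c) % 8 = 0 := by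
      intro h2
      obtain ⟨d', rfl⟩ := hdiv 2 Nat.prime_two h2
      obtain ⟨m, rfl⟩ := hn
      rw [hsum]
      have : 4 * m * (2 * d') = 8 * (m * d') := by ring
      omega
    have heven : (a + b + c) % 2 = 0 := by
      obtain ⟨m, rfl⟩ := hn
      rw [hsum]
      have : 4 * m * d = 2 * (2 * m * d) := by ring
      omega
    rcases Nat.mod_two_eq_zero_or_one a with ha2 | ha2
    · have hb2 : b % 2 = 1 := by
        by_contra hh
        have h2a : 2 ∣ a := Nat.dvd_of_mod_eq_zero ha2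
        have h2b : 2 ∣ b := Nat.dvd_of_mod_eq_zero (by omega)
        exact absurd (Nat.dvd_gcd h2a h2b) (by rw [hab]; norm_num)
      have hc2 : c % 2 = 1 := by omega
      have h2 : 2 ∣ a := Nat.dvd_of_mod_eq_zero ha2
      refine core hb2 hc2 ha2 ha hbc hab.symm hac.symm (fun p hp hpd => ?_) ?_
      · have h3 : b + c + a = a + b + c := by ring
        rw [h3]
        exact hmem p hp (by rwa [show a * b * c = b * c * a by ring])
      · have h3 : b + c + a = a + b + c := by ring
        rw [h3]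
        exact h8 (Dvd.dvd.mul_right (Dvd.dvd.mul_right h2 _) _)
    · rcases Nat.mod_two_eq_zero_or_one b with hb2 | hb2
      · have hc2 : c % 2 = 1 := by omega
        have h2 : 2 ∣ b := Nat.dvd_of_mod_eq_zero hb2
        refine core ha2 hc2 hb2 hb hac hab hbc.symm (fun p hp hpd => ?_) ?_
        · have h3 : a + c + b = a + b + c := by ring
          rw [h3]
          exact hmem p hp (by rwa [show a * b * c = a * c * b by ring])
        · have h3 : a + c + b = a + b + c := by ring
          rw [h3]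
          exact h8 (Dvd.dvd.mul_right (Dvd.dvd.mul_left h2 _) _)
      · have hc2 : c % 2 = 0 := by omega
        have h2 : 2 ∣ c := Nat.dvd_of_mod_eq_zero hc2
        exact core ha2 hb2 hc2 hc hab hac hbc hmem (h8 (Dvd.dvd.mul_left h2 _))

/-- **Theorem.** Let `n` be a positive integer divisible by `4` and `A` a positive integer. There
are no positive rational numbers `x, y, z` with `x + y + z = n` and `x y z = 1 / A`. -/
theorem result (n : ℕ) (hn : 4 ∣ n) (A : ℕ) (hA : 0 < A) :
    ¬ ∃ x y z : ℚ, 0 < x ∧ 0 < y ∧ 0 < z ∧ x + y + z = n ∧ x * y * z = 1 / A := by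
  rintro ⟨x, y, z, hx, hy, hz, hsum, hprod⟩
  -- common denominator
  set D : ℕ := x.den * y.den * z.den with hD
  have hxd : (x.den : ℚ) ≠ 0 := by exact_mod_cast x.den_nz
  have hyd : (y.den : ℚ) ≠ 0 := by exact_mod_cast y.den_nz
  have hzd : (z.den : ℚ) ≠ 0 := by exact_mod_cast z.den_nz
  have hD0 : 0 < D := by positivity
  have hx' : ∃ a : ℕ, 0 < a ∧ (a : ℚ) = x * D := by
    have hnum : 0 < x.num := Rat.num_pos.2 hx
    refine ⟨x.num.toNat * (y.den * z.den), ?_, ?_⟩
    · have : 0 < x.num.toNat := by omega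
      positivity
    · have h1 : ((x.num.toNat : ℕ) : ℚ) = (x.num : ℚ) := by
        have : ((x.num.toNat : ℕ) : ℤ) = x.num := Int.toNat_of_nonneg hnum.le
        exact_mod_cast this
      push_cast [hD]
      rw [h1]
      have h2 : (x.num : ℚ) = x * x.den := by
        rw [Rat.mul_den_eq_num]
      rw [h2]; ring
  have hy' : ∃ a : ℕ, 0 < a ∧ (a : ℚ) = y * D := by
    have hnum : 0 < y.num := Rat.num_pos.2 hy
    refine ⟨y.num.toNat * (x.den * z.den), ?_, ?_⟩
    · have : 0 < y.num.toNat := by omega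
      positivity
    · have h1 : ((y.num.toNat : ℕ) : ℚ) = (y.num : ℚ) := by
        have : ((y.num.toNat : ℕ) : ℤ) = y.num := Int.toNat_of_nonneg hnum.le
        exact_mod_cast this
      push_cast [hD]
      rw [h1]
      have h2 : (y.num : ℚ) = y * y.den := by
        rw [Rat.mul_den_eq_num]
      rw [h2]; ring
  have hz' : ∃ a : ℕ, 0 < a ∧ (a : ℚ) = z * D := by
    have hnum : 0 < z.num := Rat.num_pos.2 hz
    refine ⟨z.num.toNat * (x.den * y.den), ?_, ?_⟩
    · have : 0 < z.num.toNat := by omega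
      positivity
    · have h1 : ((z.num.toNat : ℕ) : ℚ) = (z.num : ℚ) := by
        have : ((z.num.toNat : ℕ) : ℤ) = z.num := Int.toNat_of_nonneg hnum.le
        exact_mod_cast this
      push_cast [hD]
      rw [h1]
      have h2 : (z.num : ℚ) = z * z.den := by
        rw [Rat.mul_den_eq_num]
      rw [h2]; ring
  obtain ⟨a, ha, hax⟩ := hx'
  obtain ⟨b, hb, hby⟩ := hy'
  obtain ⟨c, hc, hcz⟩ := hz'
  refine no_integral hn hA D a b c hD0 ha hb hc ?_ ?_
  · have : ((a + b + c : ℕ) : ℚ) = ((n * D : ℕ) : ℚ) := by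
      push_cast
      rw [hax, hby, hcz, ← hsum]; ring
    exact_mod_cast this
  · have hA' : (A : ℚ) ≠ 0 := by exact_mod_cast hA.ne'
    have : ((A * a * b * c : ℕ) : ℚ) = ((D ^ 3 : ℕ) : ℚ) := by
      push_cast
      rw [hax, hby, hcz]
      have h3 : (A : ℚ) * (x * D) * (y * D) * (z * D) = A * (x * y * z) * (D : ℚ) ^ 3 := by ring
      rw [h3, hprod]
      field_simp
    exact_mod_cast this

end Pool.Agent.Results.MP_1d631c_nt.NoneForMultiplesOfFour
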